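import Mathlib
import Pool.Agent.H538Z.Defs
import Pool.Agent.H538Z.Edge

set_option autoImplicit false

namespace Pool.Agent.Results.MP_e6fd84_al.ALocalBound

open Pool.Agent.H538Z

/-- Local regularity bounds give the bound for all powers. -/
theorem result :
    ∀ (K : Type) [Field K] (n : ℕ) (G : SimpleGraph (Fin n)), (∃ a b, G.Adj a b) →
      ∀ r : ℤ, (∀ x : Fin n, (reg ((edgeIdeal K G).colon {MvPolynomial.X x}) : ℤ) ≤ r) →
        ∀ q : ℕ, 1 ≤ q → (reg (edgeIdeal K G ^ q) : ℤ) ≤ 2 * q + r - 1 := by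
  intro K _ n G hG r h q hq
  exact reg_pow_le_loc hG r h hq

end Pool.Agent.Results.MP_e6fd84_al.ALocalBound
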